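import Pool.Agent.Y998.LQ.Defs

/-!
LQ-COM: commuting rates give a convolution.
-/

set_option autoImplicit false
set_option linter.all false

namespace Pool.Agent.Y309.LQ

open Finset Equiv Filter Topology Pool.Agent.Y998.ST Pool.Agent.Y998.CN Pool.Agent.Y998.LP

section

variable {V : Type} [Fintype V] [DecidableEq V]

theorem TT_add (J K : V → V → ℝ) : TT (fun x y => J x y + K x y) = TT J + TT K := by
  ext g h
  rw [Matrix.add_apply]
  unfold TT
  rw [← Finset.sum_add_distrib]
  refine Finset.sum_congr rfl fun x _ => ?_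
  rw [← Finset.sum_add_distrib]
  refine Finset.sum_congr rfl fun y _ => ?_
  ring

theorem rate_add (J K : V → V → ℝ) :
    totalRate (fun x y => J x y + K x y) = totalRate J + totalRate K := by
  unfold totalRate
  rw [← Finset.sum_add_distrib]
  refine Finset.sum_congr rfl fun x _ => ?_
  rw [← Finset.sum_add_distrib]
  refine Finset.sum_congr rfl fun y _ => ?_
  ring

theorem TT_comm {J K : V → V → ℝ}
    (hJ : ∀ x y, K x y ≠ 0 → ∀ u v, J (swap x y u) (swap x y v) = J u v) :
    Commute (TT J) (TT K) := by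
  show TT J * TT K = TT K * TT J
  ext g h
  rw [TT_mul, TT_mul]
  have e1 : ∑ u, ∑ v, J u v / 2 * TT K (swap u v * g) h =
      ∑ x, ∑ y, K x y / 2 * ∑ u, ∑ v, J u v / 2 *
        (if h = swap x y * (swap u v * g) then 1 else 0) := by
    unfold TT
    simp only [Finset.mul_sum]
    have e2 : ∀ u : V, ∑ v, ∑ x, ∑ y, J u v / 2 * (K x y / 2 *
        (if h = swap x y * (swap u v * g) then (1 : ℝ) else 0)) =
        ∑ x, ∑ y, ∑ v, J u v / 2 * (K x y / 2 *
        (if h = swap x y * (swap u v * g) then (1 : ℝ) else 0)) := by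
      intro u
      rw [Finset.sum_comm]
      exact Finset.sum_congr rfl fun x _ => Finset.sum_comm
    rw [Finset.sum_congr rfl fun u _ => e2 u, Finset.sum_comm]
    refine Finset.sum_congr rfl fun x _ => ?_
    rw [Finset.sum_comm]
    refine Finset.sum_congr rfl fun y _ => Finset.sum_congr rfl fun u _ =>
      Finset.sum_congr rfl fun v _ => ?_
    ring
  rw [e1]
  refine Finset.sum_congr rfl fun x _ => Finset.sum_congr rfl fun y _ => ?_
  by_cases hK : K x y = 0
  · rw [hK]; simp
  congr 1
  unfold TT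
  rw [← Equiv.sum_comp (swap x y)]
  refine Finset.sum_congr rfl fun u _ => ?_
  rw [← Equiv.sum_comp (swap x y)]
  refine Finset.sum_congr rfl fun v _ => ?_
  rw [hJ x y hK u v]
  have h1 : swap x y * (swap (swap x y u) (swap x y v) * g) = swap u v * (swap x y * g) := by
    rw [← mul_assoc, Equiv.mul_swap_eq_swap_mul, swap_apply_self, swap_apply_self, mul_assoc]
  rw [h1]

open scoped Matrix.Norms.Operator in
theorem E_comm {S : Type} [Fintype S] [DecidableEq S] {A B : Matrix S S ℝ} (h : Commute A B)
    (t : ℝ) : E (A + B) t = E A t * E B t := by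
  unfold E
  rw [smul_add]
  exact Matrix.exp_add_of_commute _ _ ((h.smul_left t).smul_right t)

end

theorem t_COM : Pool.Agent.Y998.LQ.S_COM := by
  intro V _ _ J K t hJ g
  have h1 : ∀ k : Perm V, E (TT J) t g (k⁻¹ * g) = E (TT J) t k 1 := by
    intro k
    have h2 := E_right J t k 1 (k⁻¹ * g)
    rw [one_mul, ← mul_assoc, mul_inv_cancel, one_mul] at h2
    exact h2
  rw [law_eq, TT_add, E_comm (TT_comm hJ), Matrix.mul_apply, rate_add]
  rw [← Equiv.sum_comp ((Equiv.inv (Perm V)).trans (Equiv.mulRight g)), Finset.mul_sum]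
  refine Finset.sum_congr rfl fun k _ => ?_
  have h3 : ((Equiv.inv (Perm V)).trans (Equiv.mulRight g)) k = k⁻¹ * g := rfl
  rw [h3, h1, law_eq, law_eq, mul_add, neg_add, Real.exp_add]
  ring

end Pool.Agent.Y309.LQ
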